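import Pool.Agent.X324.CF.Defs

/-!
# Nef and semiample sheaves on quotients `(A × F) / G`: definitions
-/

set_option autoImplicit false

namespace Pool.Agent.NH28.AB

open Pool.Agent.W594.SYZ2 Pool.Agent.TH735.AQ Pool.Agent.X324.CF

section Fibre

variable {ρ : ℕ} {R : Type*} [CommRing R] [Algebra ℂ R] (𝒜 : Cl ρ → Submodule ℂ R)

/-- The nef cone of `F`: the closure of the convex cone spanned by the semiample classes. -/
def nefConeF (u : Cl ρ) : Set (Fin ρ → ℝ) :=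
  closure (coneHull {x | ∃ β : Cl ρ, SemiampleF 𝒜 u β ∧ ∀ k, x k = (β k : ℝ)})

/-- The class `β` of `F` is nef. -/
def NefF (u β : Cl ρ) : Prop := (fun k => (β k : ℝ)) ∈ nefConeF 𝒜 u

/-- The sheaf `O_F(β)` is generated by its global sections at all points of `F`. -/
def GeneratedF (u β : Cl ρ) : Prop :=
  ∀ p : R →ₐ[ℂ] ℂ, Semistable 𝒜 u p → ∃ r ∈ 𝒜 β, p r ≠ 0

/-- `F` is a normal projective variety with class group `Cl(F) = ℤ^ρ`, an ample class `u` and the
ring `R = ⨁ 𝒜 β`, `𝒜 β = H⁰(F, O_F(β))`. Only this is used: `F` is not empty, and the sum of every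
class and a suitable multiple of `u` is effective. -/
structure IsProjective (u : Cl ρ) : Prop where
  point : ∃ p : R →ₐ[ℂ] ℂ, Semistable 𝒜 u p
  sections : ∀ β : Cl ρ, ∃ m : ℕ, (∃ r ∈ 𝒜 (β + m • u), r ≠ 0) ∧ ∃ r ∈ 𝒜 (m • u), r ≠ 0

end Fibre

section Sheaves

variable {V R : Type*} [NormedAddCommGroup V] [NormedSpace ℂ V] [CommRing R] [Algebra ℂ R]
  {ρ : ℕ} {𝒜 : Cl ρ → Submodule ℂ R} {Γ : Grp V R}

/-- The sheaf `𝓛` on `X` is nef: its class in `N^1(X)` lies in the closure of the convex cone spanned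
by the classes of the semiample sheaves. -/
def IsNef (u : Cl ρ) (𝓛 : Sheaf 𝒜 Γ) : Prop :=
  ∃ x : N1 𝒜 Γ (LinearMap.id : V →ₗ[ℂ] V), IsClass LinearMap.id 𝓛 (val x) ∧
    x ∈ nefCone 𝒜 Γ (LinearMap.id : V →ₗ[ℂ] V) u

/-- The reflexive power `𝓛^{[m]}` is generated by its global sections at all points of `X` (so it is
a line bundle, and its linear system has no base points). -/
def Generated (u : Cl ρ) (𝓛 : Sheaf 𝒜 Γ) (m : ℕ) : Prop :=
  ∀ (v : V) (p : R →ₐ[ℂ] ℂ), Semistable 𝒜 u p → ∃ f, 𝓛.IsPowSection m f ∧ p (f v) ≠ 0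

/-- The number of the automorphisms of `R` which occur in the pairs of `Γ`. -/
noncomputable def autCard (Γ : Grp V R) : ℕ := Nat.card {φ : R ≃ₐ[ℂ] R // ∃ γ ∈ Γ, γ.2 = φ}

end Sheaves

/-- A positive number which only depends on `d` and `N`, given by the orders of the groups
`GL (2 j, 𝔽₃)`, `j ≤ d`. -/
noncomputable def bound (d N : ℕ) : ℕ :=
  4 * (∏ j ∈ Finset.range (d + 1), Nat.card (Matrix (Fin (2 * j)) (Fin (2 * j)) (ZMod 3))ˣ) ^ 8 * N

end Pool.Agent.NH28.AB
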