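import Pool.Agent.NH28.AB.Defs
import Pool.Agent.R189.SY.Unif
import Pool.Agent.X324.CF.PolyNef

/-!
# Nef sheaves on `(A × F) / G` whose degree is semiample
-/

set_option autoImplicit false

namespace Pool.Agent.NH28.AB

open Finset
open Pool.Agent.W594.SYZ2 Pool.Agent.W594.SYZ2.TQ Pool.Agent.TH735.AQ Pool.Agent.X324.CF
open Pool.Agent.R893.TQ (BaseFree)

variable {V R : Type*} [NormedAddCommGroup V] [NormedSpace ℂ V]
  [CommRing R] [Algebra ℂ R] {ρ : ℕ}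
  {𝒜 : Cl ρ → Submodule ℂ R} {Γ : Grp V R} {u : Cl ρ}

theorem bound_eq (d N : ℕ) : bound d N =
    4 * (∏ j ∈ Finset.range (d + 1), Pool.Agent.R189.SY.glc j) ^ 8 * N := rfl

theorem gen_of_nef [FiniteDimensional ℂ V] [GradedAlgebra 𝒜] (hQ : IsQuotient 𝒜 u Γ)
    (h01 : HOneZero (base Γ)) {𝓛 : Sheaf 𝒜 Γ} {H : V → V → ℂ} (hH : 𝓛.IsChern H)
    (hn : ∀ v, 0 ≤ (H v v).re) {m : ℕ} (hg : GeneratedF 𝒜 u (m • 𝓛.deg)) :
    Generated u 𝓛 (bound (Module.finrank ℂ V) (Nat.card (gal Γ)) * m) := by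
  classical
  have := hQ.fin_gal
  have : Fintype (gal Γ) := Fintype.ofFinite _
  set d := Module.finrank ℂ V with hd
  have hre : ∀ z : ℂ, ((expo Γ : ℂ) * z).re = (expo Γ : ℝ) * z.re := by
    intro z
    have e2 : (expo Γ : ℂ) = ((expo Γ : ℝ) : ℂ) := by push_cast; rfl
    rw [e2, Complex.re_ofReal_mul]
  have hb : BaseFree ((𝓛.toLB hQ).pow (Pool.Agent.R189.SY.expo d)) := by
    refine Pool.Agent.R189.SY.uniform hQ.torus h01 (Sheaf.toLB_chern hQ hH) (fun v => ?_) le_rfl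
    rw [hre]
    exact mul_nonneg (Nat.cast_nonneg _) (hn v)
  obtain ⟨a, ha⟩ := Pool.Agent.R189.SY.card_dvd hQ.torus (le_refl (Module.finrank ℂ V))
  rw [← hd] at ha
  set P := ∏ j ∈ Finset.range (d + 1), Pool.Agent.R189.SY.glc j with hP
  set E := Pool.Agent.R189.SY.expo d with hE
  have hE' : E = 4 * P ^ 7 := rfl
  intro v p hp
  obtain ⟨s, hs, hs0⟩ := hb v
  obtain ⟨r, hr, hr0⟩ := exists_nonvanish (K := gal Γ) (𝒜 := 𝒜) (β := m • 𝓛.deg) (p := p)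
    fun φ => hg _ (semistable_comp hQ hp φ.2)
  have hnr := nrm_mem (𝒜 := 𝒜) (K := gal Γ)
    (fun φ hφ r hr => gal_mem hQ (𝓛.inv.nsmul m) hφ hr) hr
  have hT : bound d (Nat.card (gal Γ)) * m = P * E * (Fintype.card (gal Γ) * m) := by
    rw [bound_eq, ← hP, hE', Nat.card_eq_fintype_card]
    ring
  have hT2 : bound d (Nat.card (gal Γ)) * m = expo Γ * E * (a * m) := by
    rw [bound_eq, ← hP, hE', expo]
    have h1 : 4 * P ^ 8 * Nat.card (gal Γ) * m = 4 * P ^ 7 * P * Nat.card (gal Γ) * m := by ring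
    have h2 : 4 * P ^ 7 * P * Nat.card (gal Γ) * m
        = 4 * P ^ 7 * (Nat.card (Lin (base Γ)) * a) * Nat.card (gal Γ) * m := by rw [← ha]
    rw [h1, h2]
    ring
  refine ⟨fun v => s v ^ (a * m) • nrm (gal Γ) r ^ (P * E), ⟨fun v => ?_, fun ℓ => ?_,
    fun γ v => ?_⟩, ?_⟩
  · refine (𝒜 _).smul_mem _ ?_
    have h1 := SetLike.pow_mem_graded (P * E) hnr
    rw [smul_smul, smul_smul, mul_assoc (P * E), ← hT] at h1
    exact h1
  · have h1 : (fun v => ℓ (s v ^ (a * m) • nrm (gal Γ) r ^ (P * E)))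
        = fun v => s v ^ (a * m) * ℓ (nrm (gal Γ) r ^ (P * E)) := by
      funext v
      rw [map_smul, smul_eq_mul]
    rw [h1]
    exact (hs.holo.pow _).mul_const _
  · have h1 := hs.eq ⟨γ.1.1, mem_base γ.2⟩ v
    change s (γ.1.1 v) = (𝓛.toLB hQ).e ⟨γ.1.1, mem_base γ.2⟩ v ^ E * s v at h1
    rw [Sheaf.toLB_e, ← pow_mul] at h1
    rw [h1, map_smul, map_pow, nrm_fix (mem_gal γ.2), smul_smul, mul_pow, ← pow_mul, ← hT2]
  · rw [map_smul, smul_eq_mul, map_pow]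
    exact mul_ne_zero (pow_ne_zero _ hs0) (pow_ne_zero _ hr0)

end Pool.Agent.NH28.AB
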