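import Pool.Agent.NH28.AB.Gen

/-!
# Nef sheaves on `(A × F) / G` and nef classes of `F`
-/

set_option autoImplicit false

namespace Pool.Agent.NH28.AB

open Finset Filter Topology
open Pool.Agent.W594.SYZ2 Pool.Agent.W594.SYZ2.TQ Pool.Agent.TH735.AQ Pool.Agent.X324.CF

section Hull

variable {W : Type*} [AddCommGroup W] [Module ℝ W] [TopologicalSpace W] {P : Set W}

theorem clos_zero : (0 : W) ∈ closure (coneHull P) := subset_closure hull_zero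

theorem clos_add [ContinuousAdd W] {a b : W} (ha : a ∈ closure (coneHull P))
    (hb : b ∈ closure (coneHull P)) : a + b ∈ closure (coneHull P) :=
  map_mem_closure₂ continuous_add ha hb (fun _ h1 _ h2 => hull_add h1 h2)

theorem clos_smul [ContinuousConstSMul ℝ W] {a : W} {t : ℝ} (ht : 0 ≤ t)
    (ha : a ∈ closure (coneHull P)) : t • a ∈ closure (coneHull P) :=
  map_mem_closure (continuous_const_smul t) ha (fun _ h => hull_smul ht h)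

end Hull

variable {V R : Type*} [NormedAddCommGroup V] [NormedSpace ℂ V]
  [CommRing R] [Algebra ℂ R] {ρ : ℕ}
  {𝒜 : Cl ρ → Submodule ℂ R} {Γ : Grp V R} {u : Cl ρ}

instance instSmulN1 : ContinuousConstSMul ℝ (N1 𝒜 Γ (LinearMap.id : V →ₗ[ℂ] V)) :=
  inferInstanceAs (ContinuousConstSMul ℝ (N1s 𝒜 Γ (LinearMap.id : V →ₗ[ℂ] V)))

/-- The classes with semidefinite form and nef degree. -/
def QQ (𝒜 : Cl ρ → Submodule ℂ R) (Γ : Grp V R) (u : Cl ρ) :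
    Set (N1 𝒜 Γ (LinearMap.id : V →ₗ[ℂ] V)) :=
  {a | (∀ e, 0 ≤ ((val a).1 e e).re) ∧ (val a).2 ∈ nefConeF 𝒜 u}

theorem QQ_closed : IsClosed (QQ 𝒜 Γ u) := by
  have hval : Continuous (val : N1 𝒜 Γ (LinearMap.id : V →ₗ[ℂ] V) → Pairs V ρ) :=
    continuous_subtype_val
  have h1 : QQ 𝒜 Γ u = (⋂ e : V, {a : N1 𝒜 Γ (LinearMap.id : V →ₗ[ℂ] V) |
      0 ≤ ((val a).1 e e).re}) ∩ {a | (val a).2 ∈ nefConeF 𝒜 u} := by
    ext a
    simp [QQ]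
  rw [h1]
  refine IsClosed.inter (isClosed_iInter fun e => ?_) ?_
  · refine isClosed_le continuous_const (Complex.continuous_re.comp ?_)
    exact (continuous_apply e).comp ((continuous_apply e).comp (continuous_fst.comp hval))
  · exact isClosed_closure.preimage (continuous_snd.comp hval)

theorem nefCone_sub [FiniteDimensional ℂ V] [IsDomain R] [GradedAlgebra 𝒜] (hF : IsProjective 𝒜 u) (hQ : IsQuotient 𝒜 u Γ) :
    nefCone 𝒜 Γ (LinearMap.id : V →ₗ[ℂ] V) u ⊆ QQ 𝒜 Γ u := by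
  refine closure_minimal (fun _ ha => hull_ind (p := fun a => a ∈ QQ 𝒜 Γ u) ?_ ?_ ?_ ?_ ha)
    QQ_closed
  · exact ⟨fun _ => le_refl (0 : ℝ), clos_zero⟩
  · intro a b ha hb
    refine ⟨fun e => ?_, clos_add ha.2 hb.2⟩
    change 0 ≤ ((val a).1 e e + (val b).1 e e).re
    rw [Complex.add_re]
    exact add_nonneg (ha.1 e) (hb.1 e)
  · intro t a ht ha
    refine ⟨fun e => ?_, clos_smul ht ha.2⟩
    change 0 ≤ (t • (val a).1 e e).re
    rw [Complex.smul_re]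
    exact mul_nonneg ht (ha.1 e)
  · rintro a ⟨𝓛, hc, m, hm, h1⟩
    have hmr : (0 : ℝ) < m := by exact_mod_cast hm
    refine ⟨fun e => ?_, ?_⟩
    · obtain ⟨p, hp⟩ := hF.point
      obtain ⟨f, hf, hf0⟩ := h1 0 p hp
      obtain ⟨⟨H, hH, h2⟩, -⟩ := hc
      have h4 := Sheaf.nef_of_section hQ (Sheaf.chern_pow hH m) hf.sec ⟨0, fun h => hf0 (by
        rw [h, map_zero])⟩ e
      have e2 : (m : ℂ) = ((m : ℝ) : ℂ) := by push_cast; rfl
      rw [e2, Complex.re_ofReal_mul] at h4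
      rw [h2]
      exact nonneg_of_mul_nonneg_right h4 hmr
    · refine subset_closure (hull_mem ⟨𝓛.deg, ⟨m, hm, fun p hp => ?_⟩, hc.2⟩)
      obtain ⟨f, hf, hf0⟩ := h1 0 p hp
      exact ⟨f 0, hf.mem 0, hf0⟩

theorem nef_data [FiniteDimensional ℂ V] [IsDomain R] [GradedAlgebra 𝒜] (hF : IsProjective 𝒜 u) (hQ : IsQuotient 𝒜 u Γ)
    {𝓛 : Sheaf 𝒜 Γ} (h : IsNef u 𝓛) :
    (∃ H, 𝓛.IsChern H ∧ ∀ v, 0 ≤ (H v v).re) ∧ NefF 𝒜 u 𝓛.deg := by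
  obtain ⟨x, ⟨⟨H, hH, h1⟩, h2⟩, hx⟩ := h
  obtain ⟨h3, h4⟩ := nefCone_sub hF hQ hx
  refine ⟨⟨H, hH, fun v => ?_⟩, ?_⟩
  · have h5 := h3 v
    rw [h1] at h5
    exact h5
  · have h5 : (val x).2 = fun k => (𝓛.deg k : ℝ) := funext h2
    rw [h5] at h4
    exact h4

/-! ### Averaging -/

theorem base0 (hF : IsProjective 𝒜 u) : Base 𝒜 (fun i : Fin 0 => (i.elim0 : Cl ρ)) where
  gens := fun H hH => by
    rw [eq_top_iff]
    intro β _
    obtain ⟨m, h1, h2⟩ := hF.sections β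
    have h3 := H.sub_mem (hH _ h1) (hH _ h2)
    rwa [add_sub_cancel_right] at h3
  pointed := fun c _ => funext fun i => i.elim0

theorem ind_unique [GradedAlgebra 𝒜] (hF : IsProjective 𝒜 u) {φ : R ≃ₐ[ℂ] R}
    {σ τ : Cl ρ ≃+ Cl ρ} (h : Induces 𝒜 φ σ) (h' : Induces 𝒜 φ τ) (β : Cl ρ) : σ β = τ β := by
  have h1 := (base0 hF).gens (AddMonoidHom.eqLocus (σ : Cl ρ →+ Cl ρ) (τ : Cl ρ →+ Cl ρ)) (by
    rintro β' ⟨r, hr, hr0⟩
    change σ β' = τ β'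
    refine DirectSum.degree_eq_of_mem_mem 𝒜 (h β' r hr) (h' β' r hr) ?_
    intro h0
    exact hr0 (φ.injective (by rw [h0, map_zero])))
  have h2 : β ∈ AddMonoidHom.eqLocus (σ : Cl ρ →+ Cl ρ) (τ : Cl ρ →+ Cl ρ) := by
    rw [h1]; trivial
  exact h2

theorem exists_sg (hQ : IsQuotient 𝒜 u Γ) (φ : gal Γ) : ∃ σ, Induces 𝒜 φ.1 σ := by
  obtain ⟨φ, γ, hγ, rfl⟩ := φ
  exact hQ.perm γ hγ

/-- The action on the class group. -/
noncomputable def sg (hQ : IsQuotient 𝒜 u Γ) (φ : gal Γ) : Cl ρ ≃+ Cl ρ :=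
  (exists_sg hQ φ).choose

theorem sg_spec (hQ : IsQuotient 𝒜 u Γ) (φ : gal Γ) : Induces 𝒜 φ.1 (sg hQ φ) :=
  (exists_sg hQ φ).choose_spec

theorem sg_inv (hQ : IsQuotient 𝒜 u Γ) (φ : gal Γ) {β : Cl ρ} (hβ : Inv 𝒜 Γ β) :
    sg hQ φ β = β := by
  obtain ⟨γ, hγ, h⟩ := φ.2
  refine hβ γ hγ _ ?_
  change Induces 𝒜 (MonoidHom.snd _ _ γ) _
  rw [h]
  exact sg_spec hQ φ

/-- The sum of the conjugates of a class. -/
noncomputable def tr [Fintype (gal Γ)] (hQ : IsQuotient 𝒜 u Γ) (α : Cl ρ) : Cl ρ :=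
  ∑ φ : gal Γ, sg hQ φ α

theorem tr_inv [GradedAlgebra 𝒜] [Fintype (gal Γ)] (hF : IsProjective 𝒜 u)
    (hQ : IsQuotient 𝒜 u Γ) (α : Cl ρ) : Inv 𝒜 Γ (tr hQ α) := by
  intro γ hγ σ hσ
  rw [tr, map_sum]
  refine Fintype.sum_equiv (Equiv.mulLeft (⟨γ.2, mem_gal hγ⟩ : gal Γ)) _ _ fun φ => ?_
  have h1 : Induces 𝒜 ((⟨γ.2, mem_gal hγ⟩ : gal Γ) * φ).1 ((sg hQ φ).trans σ) := by
    intro β r hr
    change γ.2 (φ.1 r) ∈ 𝒜 (σ (sg hQ φ β))
    exact hσ _ _ (sg_spec hQ φ _ _ hr)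
  exact ind_unique hF h1 (sg_spec hQ _) α

theorem semiample_sg [GradedAlgebra 𝒜] (hQ : IsQuotient 𝒜 u Γ) (φ : gal Γ) {α : Cl ρ}
    (h : SemiampleF 𝒜 u α) : SemiampleF 𝒜 u (sg hQ φ α) := by
  obtain ⟨m, hm, h1⟩ := h
  refine ⟨m, hm, fun p hp => ?_⟩
  obtain ⟨r, hr, hr0⟩ := h1 _ (semistable_comp hQ hp φ.2)
  refine ⟨φ.1 r, ?_, hr0⟩
  rw [← map_nsmul]
  exact sg_spec hQ φ _ _ hr

theorem semiample_tr [GradedAlgebra 𝒜] [Fintype (gal Γ)] (hQ : IsQuotient 𝒜 u Γ) {α : Cl ρ}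
    (h : SemiampleF 𝒜 u α) : SemiampleF 𝒜 u (tr hQ α) :=
  SemiampleF.sum _ _ fun φ _ => semiample_sg hQ φ h

theorem rv_nsmul' (m : ℕ) (β : Cl ρ) : rv (m • β) = (m : ℝ) • rv β := by
  funext k
  change (((m • β) k : ℤ) : ℝ) = (m : ℝ) * (β k : ℝ)
  rw [Pi.smul_apply, nsmul_eq_mul]
  push_cast
  rfl

/-- The real linear extension. -/
noncomputable def ext (σ : Cl ρ ≃+ Cl ρ) : (Fin ρ → ℝ) →ₗ[ℝ] (Fin ρ → ℝ) :=
  ∑ j, (LinearMap.proj j).smulRight (rv (σ (Pi.single j 1)))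

theorem ext_rv (σ : Cl ρ ≃+ Cl ρ) (β : Cl ρ) : ext σ (rv β) = rv (σ β) := by
  have h1 : β = ∑ j, β j • (Pi.single j (1 : ℤ) : Cl ρ) := by
    funext k
    rw [Finset.sum_apply, Finset.sum_eq_single k]
    · simp
    · intro b _ hb
      simp [Pi.single_eq_of_ne (Ne.symm hb)]
    · intro h
      exact absurd (Finset.mem_univ _) h
  have h2 : σ β = ∑ j, β j • σ (Pi.single j (1 : ℤ)) := by
    conv_lhs => rw [h1]
    rw [map_sum]
    exact Finset.sum_congr rfl fun j _ => map_zsmul σ _ _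
  rw [h2]
  funext k
  simp only [ext, LinearMap.sum_apply, LinearMap.smulRight_apply, LinearMap.proj_apply,
    Finset.sum_apply, Pi.smul_apply, smul_eq_mul, rv]
  push_cast
  exact Finset.sum_congr rfl fun j _ => by push_cast; ring

/-- The average over the group. -/
noncomputable def avg [Fintype (gal Γ)] (hQ : IsQuotient 𝒜 u Γ) :
    (Fin ρ → ℝ) →ₗ[ℝ] (Fin ρ → ℝ) :=
  (Fintype.card (gal Γ) : ℝ)⁻¹ • ∑ φ : gal Γ, ext (sg hQ φ)

theorem avg_rv [Fintype (gal Γ)] (hQ : IsQuotient 𝒜 u Γ) (α : Cl ρ) :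
    avg hQ (rv α) = (Fintype.card (gal Γ) : ℝ)⁻¹ • rv (tr hQ α) := by
  rw [avg, LinearMap.smul_apply, LinearMap.sum_apply]
  congr 1
  funext k
  rw [Finset.sum_apply]
  simp only [ext_rv, tr, rv, Finset.sum_apply]
  push_cast
  rfl

theorem avg_inv [Fintype (gal Γ)] (hQ : IsQuotient 𝒜 u Γ) {β : Cl ρ} (hβ : Inv 𝒜 Γ β) :
    avg hQ (rv β) = rv β := by
  have h1 : tr hQ β = Fintype.card (gal Γ) • β := by
    rw [tr, Finset.sum_congr rfl fun φ _ => sg_inv hQ φ hβ, Finset.sum_const, Finset.card_univ]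
  have h2 : (Fintype.card (gal Γ) : ℝ) ≠ 0 := by exact_mod_cast Fintype.card_ne_zero
  rw [avg_rv, h1, rv_nsmul', smul_smul, inv_mul_cancel₀ h2, one_smul]

theorem class_mem [GradedAlgebra 𝒜] [Fintype (gal Γ)] (hF : IsProjective 𝒜 u)
    (hQ : IsQuotient 𝒜 u Γ) {x : Fin ρ → ℝ}
    (hx : x ∈ coneHull {x | ∃ β : Cl ρ, SemiampleF 𝒜 u β ∧ ∀ k, x k = (β k : ℝ)}) :
    ∃ a : N1 𝒜 Γ (LinearMap.id : V →ₗ[ℂ] V), val a = (0, avg hQ x) ∧
      a ∈ coneHull (semiample 𝒜 Γ (LinearMap.id : V →ₗ[ℂ] V) u) := by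
  refine hull_ind (p := fun x => ∃ a : N1 𝒜 Γ (LinearMap.id : V →ₗ[ℂ] V),
    val a = (0, avg hQ x) ∧ a ∈ coneHull (semiample 𝒜 Γ (LinearMap.id : V →ₗ[ℂ] V) u))
    ?_ ?_ ?_ ?_ hx
  · refine ⟨0, ?_, hull_zero⟩
    rw [map_zero]
    rfl
  · rintro x y ⟨a, ha, ha'⟩ ⟨b, hb, hb'⟩
    refine ⟨a + b, ?_, hull_add ha' hb'⟩
    change val a + val b = _
    rw [ha, hb, map_add, Prod.mk_add_mk, add_zero]
  · rintro t x ht ⟨a, ha, ha'⟩
    refine ⟨t • a, ?_, hull_smul ht ha'⟩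
    change t • val a = _
    rw [ha, map_smul, Prod.smul_mk, smul_zero]
  · rintro x ⟨α, hα, hx⟩
    have hxr : x = rv α := funext hx
    have hinv := tr_inv hF hQ α
    obtain ⟨m, hm, h1⟩ := semiample_tr hQ hα
    have hinv' := hinv.nsmul m
    let a : N1 𝒜 Γ (LinearMap.id : V →ₗ[ℂ] V) :=
      ⟨(0, (Nat.card (gal Γ) : ℝ) • rv (m • tr hQ α)),
        Submodule.subset_span ⟨_, isClass_ofDeg (base0 hF) hQ hinv'⟩⟩
    have ha : a ∈ semiample 𝒜 Γ (LinearMap.id : V →ₗ[ℂ] V) u := by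
      refine ⟨ofDeg (base0 hF) hQ _ hinv', isClass_ofDeg (base0 hF) hQ hinv', 1, one_pos,
        fun v p hp => ?_⟩
      obtain ⟨r, hr, hr0⟩ := exists_nonvanish (K := gal Γ) (𝒜 := 𝒜) (β := m • tr hQ α) (p := p)
        fun φ => h1 _ (semistable_comp hQ hp φ.2)
      exact ⟨_, Sheaf.pow_one_section (ofDeg_section hr), hr0⟩
    have hN : (Fintype.card (gal Γ) : ℝ) ≠ 0 := by exact_mod_cast Fintype.card_ne_zero
    have hm0 : (m : ℝ) ≠ 0 := by exact_mod_cast hm.ne'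
    refine ⟨((Fintype.card (gal Γ) : ℝ) * Fintype.card (gal Γ) * m)⁻¹ • a, ?_,
      hull_smul (by positivity) (hull_mem ha)⟩
    change ((Fintype.card (gal Γ) : ℝ) * Fintype.card (gal Γ) * m)⁻¹ •
      ((0, (Nat.card (gal Γ) : ℝ) • rv (m • tr hQ α)) : Pairs V ρ) = _
    rw [hxr, avg_rv, Prod.smul_mk, smul_zero, Nat.card_eq_fintype_card, rv_nsmul', smul_smul,
      smul_smul]
    congr 2
    field_simp

theorem ofDeg_nef [GradedAlgebra 𝒜] (hF : IsProjective 𝒜 u) (hQ : IsQuotient 𝒜 u Γ)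
    {β : Cl ρ} (hβ : Inv 𝒜 Γ β) (hn : NefF 𝒜 u β) :
    IsNef u (ofDeg (base0 hF) hQ β hβ) := by
  classical
  have := hQ.fin_gal
  have : Fintype (gal Γ) := Fintype.ofFinite _
  let b : N1 𝒜 Γ (LinearMap.id : V →ₗ[ℂ] V) :=
    ⟨(0, rv β), mem_of_deg (base0 hF) hQ (Submodule.subset_span ⟨β, hβ, rfl⟩)⟩
  have hb : b ∈ nefCone 𝒜 Γ (LinearMap.id : V →ₗ[ℂ] V) u := by
    have hind : Topology.IsInducing
        (val : N1 𝒜 Γ (LinearMap.id : V →ₗ[ℂ] V) → Pairs V ρ) := ⟨rfl⟩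
    change b ∈ closure _
    rw [hind.closure_eq_preimage_closure_image]
    change ((0, rv β) : Pairs V ρ) ∈ closure _
    have hg : Continuous fun x : Fin ρ → ℝ => ((0, avg hQ x) : Pairs V ρ) :=
      continuous_const.prodMk (LinearMap.continuous_of_finiteDimensional (avg hQ))
    have h1 := map_mem_closure hg hn (t := (val : N1 𝒜 Γ (LinearMap.id : V →ₗ[ℂ] V) → Pairs V ρ) ''
      coneHull (semiample 𝒜 Γ (LinearMap.id : V →ₗ[ℂ] V) u)) (by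
        intro x hx
        obtain ⟨a, ha, ha'⟩ := class_mem (Γ := Γ) hF hQ hx
        exact ⟨a, ha', ha⟩)
    have h2 : avg hQ (fun k => (β k : ℝ)) = rv β := avg_inv hQ hβ
    rw [h2] at h1
    exact h1
  refine ⟨(Nat.card (gal Γ) : ℝ) • b, ?_, clos_smul (Nat.cast_nonneg _) hb⟩
  have h3 : val ((Nat.card (gal Γ) : ℝ) • b) = (0, (Nat.card (gal Γ) : ℝ) • rv β) := by
    change (Nat.card (gal Γ) : ℝ) • ((0, rv β) : Pairs V ρ) = _
    rw [Prod.smul_mk, smul_zero]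
  rw [h3]
  exact isClass_ofDeg (base0 hF) hQ hβ

theorem semiample_of_ofDeg (hF : IsProjective 𝒜 u) (hQ : IsQuotient 𝒜 u Γ)
    {β : Cl ρ} (hβ : Inv 𝒜 Γ β) (h : (ofDeg (base0 hF) hQ β hβ).IsSemiample u) :
    SemiampleF 𝒜 u β := by
  have := hQ.fin_gal
  obtain ⟨m, hm, h1⟩ := h
  refine ⟨m * Nat.card (gal Γ), Nat.mul_pos hm Nat.card_pos, fun p hp => ?_⟩
  obtain ⟨f, hf, hf0⟩ := h1 0 p hp
  refine ⟨f 0, ?_, hf0⟩
  have h2 := hf.mem 0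
  change f 0 ∈ 𝒜 (m • (Nat.card (gal Γ) • β)) at h2
  rwa [smul_smul] at h2

/-! ### Polyhedral nef cones -/

theorem semiample_of_poly [GradedAlgebra 𝒜] {n : ℕ} {w : Fin n → Cl ρ}
    (D : IsNefPolyhedral 𝒜 w u) {β : Cl ρ} (hn : NefF 𝒜 u β) : SemiampleF 𝒜 u β := by
  have h1 : nefConeF 𝒜 u ⊆ CI w Finset.univ := by
    refine closure_minimal (fun _ ha => hull_ind (p := fun a => a ∈ CI w Finset.univ) CI_zero
      (fun _ _ h1 h2 => CI_add h1 h2) (fun _ _ ht h => CI_smul h ht) ?_ ha) (CI_closed w _)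
    rintro x ⟨α, hα, hx⟩
    have hxr : x = rv α := funext hx
    rw [hxr]
    exact D.mem_CI hα
  obtain ⟨k, hk, c, -, hkc⟩ := exists_nat (β := β) (h1 hn)
  have hs : SemiampleF 𝒜 u (k • β) := by
    rw [hkc]
    exact SemiampleF.sum _ _ fun i _ => (D.semiample i).nsmul _
  obtain ⟨m, hm, h2⟩ := hs
  refine ⟨m * k, Nat.mul_pos hm hk, fun p hp => ?_⟩
  obtain ⟨r, hr, hr0⟩ := h2 p hp
  rw [smul_smul] at hr
  exact ⟨r, hr, hr0⟩

theorem IsNefPolyhedral.proj {n : ℕ} {w : Fin n → Cl ρ} (D : IsNefPolyhedral 𝒜 w u) :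
    IsProjective 𝒜 u := ⟨D.point, D.sections⟩

end Pool.Agent.NH28.AB
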